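import Mathlib

/-!
L-SHAPED CORRIDOR, module A (limit theorem), part 1: the law `p_m` and two-sided bounds.
-/

set_option autoImplicit false

namespace LCor
open Finset Filter Topology

noncomputable section

/-- `N = 9 (m+1) (2m+1)` -/
def NN (m : ℕ) : ℝ := 9 * ((m : ℝ) + 1) * (2 * m + 1)

/-- `p` is the law of `J_m`: the backward recursion and the normalisation -/
structure IsLaw (m : ℕ) (p : ℕ → ℝ) : Prop where
  zero : ∀ n, m < n → p n = 0
  recu : ∀ n : ℕ, 1 ≤ n → n ≤ m → 9 * ((m : ℝ) + 1 - n) * (2 * m + 2 * n + 1) * p (n - 1) =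
      (12 * (n : ℝ) ^ 2 + 6 * n + 3 + NN m) * p n + ((n : ℝ) + 1) * (2 * n + 1) * p (n + 1)
  sum : ∑ n ∈ range (m + 1), p n = 1

theorem NN_pos (m : ℕ) : 0 < NN m := by unfold NN; positivity

theorem NN_ge {m n : ℕ} (h : n ≤ m) : 18 * (n : ℝ) ^ 2 + 27 * n + 9 ≤ NN m := by
  unfold NN
  have h1 : (n : ℝ) ≤ m := by exact_mod_cast h
  have h0 : (0 : ℝ) ≤ n := Nat.cast_nonneg n
  nlinarith

variable {m : ℕ} {p : ℕ → ℝ}

theorem IsLaw.recu' (hp : IsLaw m p) (n : ℕ) (h : n < m) :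
    (NN m - 18 * ((n : ℝ) + 1) ^ 2 + 9 * (n + 1)) * p n =
      (12 * ((n : ℝ) + 1) ^ 2 + 6 * (n + 1) + 3 + NN m) * p (n + 1) +
        ((n : ℝ) + 2) * (2 * n + 3) * p (n + 2) := by
  have h1 := hp.recu (n + 1) (by omega) (by omega)
  have h2 : n + 1 - 1 = n := by omega
  rw [h2] at h1
  push_cast at h1
  have h3 : 9 * ((m : ℝ) + 1 - (n + 1)) * (2 * m + 2 * (n + 1) + 1) =
      NN m - 18 * ((n : ℝ) + 1) ^ 2 + 9 * (n + 1) := by unfold NN; ring
  rw [h3] at h1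
  rw [h1]
  ring

theorem coef_pos {m n : ℕ} (h : n < m) : 0 < NN m - 18 * ((n : ℝ) + 1) ^ 2 + 9 * (n + 1) := by
  have h1 := NN_ge (m := m) (n := n + 1) (by omega)
  push_cast at h1
  have h0 : (0 : ℝ) ≤ n := Nat.cast_nonneg n
  nlinarith

/-- downward induction -/
theorem down {m : ℕ} {P : ℕ → Prop} (h0 : P m) (h1 : ∀ n, n < m → P (n + 1) → P (n + 2) → P n)
    (h2 : P (m + 1)) : ∀ n, n ≤ m + 1 → P n := by
  have key : ∀ d, d ≤ m → P (m - d) ∧ P (m - d + 1) := by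
    intro d
    induction d with
    | zero => intro _; exact ⟨h0, h2⟩
    | succ d ih =>
      intro hd
      obtain ⟨a, b⟩ := ih (by omega)
      have e : m - (d + 1) + 1 = m - d := by omega
      refine ⟨h1 _ (by omega) ?_ ?_, ?_⟩
      · rw [e]; exact a
      · have e2 : m - (d + 1) + 2 = m - d + 1 := by omega
        rw [e2]; exact b
      · rw [e]; exact a
  intro n hn
  by_cases h : n ≤ m
  · have := (key (m - n) (by omega)).1
    have e : m - (m - n) = n := by omega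
    rwa [e] at this
  · have : n = m + 1 := by omega
    rw [this]; exact h2

theorem IsLaw.last_pos (hp : IsLaw m p) : 0 < p m := by
  by_contra hneg
  push Not at hneg
  have h : ∀ n, n ≤ m + 1 → p n ≤ 0 := by
    refine down (P := fun n => p n ≤ 0) hneg ?_ ?_
    · intro n hn h1 h2
      have hr := hp.recu' n hn
      have hc := coef_pos hn
      have h3 : 0 ≤ (12 * ((n : ℝ) + 1) ^ 2 + 6 * (n + 1) + 3 + NN m) := by
        have := NN_pos m
        positivity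
      have h4 : 0 ≤ ((n : ℝ) + 2) * (2 * n + 3) := by positivity
      by_contra h5
      push Not at h5
      have h6 := mul_pos hc h5
      have h7 := mul_nonneg h3 (neg_nonneg.2 h1)
      have h8 := mul_nonneg h4 (neg_nonneg.2 h2)
      nlinarith
    · rw [hp.zero _ (by omega)]
  have h2 : ∑ n ∈ range (m + 1), p n ≤ 0 := sum_nonpos fun n hn => h n (by simp at hn; omega)
  rw [hp.sum] at h2
  linarith

theorem IsLaw.nonneg (hp : IsLaw m p) (n : ℕ) : 0 ≤ p n := by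
  by_cases h : n ≤ m + 1
  · revert n
    refine down (P := fun n => 0 ≤ p n) hp.last_pos.le ?_ ?_
    · intro n hn h1 h2
      have hr := hp.recu' n hn
      have hc := coef_pos hn
      have h3 : 0 ≤ (12 * ((n : ℝ) + 1) ^ 2 + 6 * (n + 1) + 3 + NN m) := by
        have := NN_pos m
        positivity
      have h4 : 0 ≤ ((n : ℝ) + 2) * (2 * n + 3) := by positivity
      by_contra h5
      push Not at h5
      have h6 := mul_neg_of_pos_of_neg hc h5
      have h7 := mul_nonneg h3 h1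
      have h8 := mul_nonneg h4 h2
      nlinarith
    · rw [hp.zero _ (by omega)]
  · rw [hp.zero _ (by omega)]

theorem IsLaw.pos (hp : IsLaw m p) (n : ℕ) (h : n ≤ m) : 0 < p n := by
  rcases Nat.eq_or_lt_of_le h with rfl | h'
  · exact hp.last_pos
  obtain ⟨d, hd⟩ : ∃ d, m = n + 1 + d := ⟨m - n - 1, by omega⟩
  induction d generalizing n with
  | zero =>
    have e : n + 1 = m := by omega
    have hr := hp.recu' n h'
    have hc := coef_pos h'
    rw [e] at hr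
    have h3 : 0 < (12 * ((n : ℝ) + 1) ^ 2 + 6 * (n + 1) + 3 + NN m) := by
      have := NN_pos m
      positivity
    have h4 : 0 ≤ ((n : ℝ) + 2) * (2 * n + 3) := by positivity
    have h5 := mul_pos h3 hp.last_pos
    have h6 := mul_nonneg h4 (hp.nonneg (n + 2))
    by_contra h7
    push Not at h7
    have h8 := mul_nonpos_of_nonneg_of_nonpos hc.le h7
    linarith
  | succ d ih =>
    have h1 := ih (n + 1) (by omega) (by omega) (by omega)
    have hr := hp.recu' n h'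
    have hc := coef_pos h'
    have h3 : 0 < (12 * ((n : ℝ) + 1) ^ 2 + 6 * (n + 1) + 3 + NN m) := by
      have := NN_pos m
      positivity
    have h4 : 0 ≤ ((n : ℝ) + 2) * (2 * n + 3) := by positivity
    have h5 := mul_pos h3 h1
    have h6 := mul_nonneg h4 (hp.nonneg (n + 2))
    by_contra h7
    push Not at h7
    have h8 := mul_nonpos_of_nonneg_of_nonpos hc.le h7
    linarith

/-- tail bound -/
theorem IsLaw.upper1 (hp : IsLaw m p) (n : ℕ) :
    p (n + 1) ≤ Real.exp (-(13 * ((n : ℝ) + 1) ^ 2 / NN m)) * p n := by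
  by_cases h : n < m
  · have hr := hp.recu' n h
    have hN := NN_pos m
    have h1 := NN_ge (m := m) (n := n + 1) (by omega)
    push_cast at h1
    have h0 : (0 : ℝ) ≤ n := Nat.cast_nonneg n
    have h2 : 0 ≤ ((n : ℝ) + 2) * (2 * n + 3) * p (n + 2) := mul_nonneg (by positivity) (hp.nonneg _)
    have h3 : p (n + 1) ≤ (1 - 13 * ((n : ℝ) + 1) ^ 2 / NN m) * p n := by
      have h4 : (12 * ((n : ℝ) + 1) ^ 2 + 6 * (n + 1) + 3 + NN m) * p (n + 1) ≤
          (NN m - 18 * ((n : ℝ) + 1) ^ 2 + 9 * (n + 1)) * p n := by linarith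
      have h5 : (NN m - 18 * ((n : ℝ) + 1) ^ 2 + 9 * (n + 1)) ≤
          (12 * ((n : ℝ) + 1) ^ 2 + 6 * (n + 1) + 3 + NN m) * (1 - 13 * ((n : ℝ) + 1) ^ 2 / NN m) := by
        rw [show (1 - 13 * ((n : ℝ) + 1) ^ 2 / NN m) = (NN m - 13 * ((n : ℝ) + 1) ^ 2) / NN m by
          field_simp, mul_div_assoc', le_div_iff₀ hN]
        have e : ∃ t : ℝ, t = (n : ℝ) + 1 ∧ 1 ≤ t := ⟨_, rfl, by linarith⟩
        obtain ⟨t, ht, ht1⟩ := e
        rw [← ht] at h1 ⊢
        have h6 : 18 * t ^ 2 ≤ NN m := by nlinarith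
        nlinarith [mul_nonneg (sub_nonneg.2 h1) (by nlinarith : (0:ℝ) ≤ 17 * t ^ 2 - 3 * t + 3),
          mul_nonneg (sub_nonneg.2 ht1) (sub_nonneg.2 ht1), pow_pos (by linarith : (0:ℝ) < t) 3,
          pow_pos (by linarith : (0:ℝ) < t) 4]
      have h7 : 0 < (12 * ((n : ℝ) + 1) ^ 2 + 6 * (n + 1) + 3 + NN m) := by positivity
      have h8 := mul_le_mul_of_nonneg_right h5 (hp.nonneg n)
      have h9 : (12 * ((n : ℝ) + 1) ^ 2 + 6 * (n + 1) + 3 + NN m) * p (n + 1) ≤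
          (12 * ((n : ℝ) + 1) ^ 2 + 6 * (n + 1) + 3 + NN m) *
            ((1 - 13 * ((n : ℝ) + 1) ^ 2 / NN m) * p n) := by
        rw [← mul_assoc]; exact h4.trans h8
      exact le_of_mul_le_mul_left h9 h7
    refine h3.trans (mul_le_mul_of_nonneg_right ?_ (hp.nonneg n))
    have := Real.add_one_le_exp (-(13 * ((n : ℝ) + 1) ^ 2 / NN m))
    linarith
  · rw [hp.zero (n + 1) (by omega)]
    exact mul_nonneg (Real.exp_pos _).le (hp.nonneg n)

theorem IsLaw.anti (hp : IsLaw m p) (n : ℕ) : p (n + 1) ≤ p n := by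
  refine (hp.upper1 n).trans ?_
  have h1 : Real.exp (-(13 * ((n : ℝ) + 1) ^ 2 / NN m)) ≤ 1 := by
    rw [Real.exp_le_one_iff]
    have := NN_pos m
    have : 0 ≤ 13 * ((n : ℝ) + 1) ^ 2 / NN m := by positivity
    linarith
  have := mul_le_mul_of_nonneg_right h1 (hp.nonneg n)
  linarith

/-- lower bound of the ratio -/
theorem IsLaw.lower (hp : IsLaw m p) (n : ℕ) :
    (1 - (32 * ((n : ℝ) + 1) ^ 2 + 4) / NN m) * p n ≤ p (n + 1) := by
  have hN := NN_pos m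
  have h0 : (0 : ℝ) ≤ n := Nat.cast_nonneg n
  by_cases h : n < m
  · have hr := hp.recu' n h
    have h2 : ((n : ℝ) + 2) * (2 * n + 3) * p (n + 2) ≤ ((n : ℝ) + 2) * (2 * n + 3) * p (n + 1) :=
      mul_le_mul_of_nonneg_left (hp.anti (n + 1)) (by positivity)
    have h4 : (NN m - 18 * ((n : ℝ) + 1) ^ 2 + 9 * (n + 1)) * p n ≤
        (14 * ((n : ℝ) + 1) ^ 2 + 9 * (n + 1) + 4 + NN m) * p (n + 1) := by
      rw [hr]
      have e : (14 * ((n : ℝ) + 1) ^ 2 + 9 * (n + 1) + 4 + NN m) * p (n + 1) =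
        (12 * ((n : ℝ) + 1) ^ 2 + 6 * (n + 1) + 3 + NN m) * p (n + 1) +
          ((n : ℝ) + 2) * (2 * n + 3) * p (n + 1) := by ring
      rw [e]
      linarith
    have h7 : 0 < (14 * ((n : ℝ) + 1) ^ 2 + 9 * (n + 1) + 4 + NN m) := by positivity
    have h5 : (14 * ((n : ℝ) + 1) ^ 2 + 9 * (n + 1) + 4 + NN m) *
        (1 - (32 * ((n : ℝ) + 1) ^ 2 + 4) / NN m) ≤
        (NN m - 18 * ((n : ℝ) + 1) ^ 2 + 9 * (n + 1)) := by
      have e : (14 * ((n : ℝ) + 1) ^ 2 + 9 * (n + 1) + 4 + NN m) *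
        (1 - (32 * ((n : ℝ) + 1) ^ 2 + 4) / NN m) =
        (NN m - 18 * ((n : ℝ) + 1) ^ 2 + 9 * (n + 1)) -
          (14 * ((n : ℝ) + 1) ^ 2 + 9 * (n + 1) + 4) * (32 * ((n : ℝ) + 1) ^ 2 + 4) / NN m := by
        field_simp
        ring
      rw [e]
      have : 0 ≤ (14 * ((n : ℝ) + 1) ^ 2 + 9 * (n + 1) + 4) * (32 * ((n : ℝ) + 1) ^ 2 + 4) / NN m := by
        positivity
      linarith
    have h8 := mul_le_mul_of_nonneg_right h5 (hp.nonneg n)
    have h9 : (14 * ((n : ℝ) + 1) ^ 2 + 9 * (n + 1) + 4 + NN m) *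
        ((1 - (32 * ((n : ℝ) + 1) ^ 2 + 4) / NN m) * p n) ≤
        (14 * ((n : ℝ) + 1) ^ 2 + 9 * (n + 1) + 4 + NN m) * p (n + 1) := by
      rw [← mul_assoc]; exact h8.trans h4
    exact le_of_mul_le_mul_left h9 h7
  · rcases Nat.eq_or_lt_of_le (not_lt.1 h) with rfl | h'
    · rw [hp.zero (m + 1) (by omega)]
      have h1 : 1 - (32 * ((m : ℝ) + 1) ^ 2 + 4) / NN m ≤ 0 := by
        rw [sub_nonpos, le_div_iff₀ hN]
        unfold NN
        nlinarith
      exact mul_nonpos_of_nonpos_of_nonneg h1 (hp.nonneg m)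
    · rw [hp.zero n h', hp.zero (n + 1) (by omega)]
      simp

/-- sharp upper bound of the ratio -/
theorem IsLaw.upper2 (hp : IsLaw m p) (n : ℕ) :
    p (n + 1) ≤ (1 - 32 * ((n : ℝ) + 1) ^ 2 / NN m + 520 * ((n : ℝ) + 2) ^ 4 / NN m ^ 2) * p n := by
  have hN := NN_pos m
  have h0 : (0 : ℝ) ≤ n := Nat.cast_nonneg n
  by_cases h : n < m
  · have hr := hp.recu' n h
    have hl := hp.lower (n + 1)
    have hge := NN_ge (m := m) (n := n + 1) (by omega)
    push_cast at hl hge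
    obtain ⟨t, ht, ht1⟩ : ∃ t : ℝ, t = (n : ℝ) + 1 ∧ 1 ≤ t := ⟨_, rfl, by linarith⟩
    have e2 : (n : ℝ) + 2 = t + 1 := by rw [ht]; ring
    have e3 : (2 * (n : ℝ) + 3) = 2 * t + 1 := by rw [ht]; ring
    rw [e2, e3, ← ht] at hr
    rw [← ht] at hl hge
    rw [e2, ← ht]
    rw [show (n : ℕ) + 1 + 1 = n + 2 by ring] at hl
    set N := NN m with hNd
    -- N + 14 t^2 + 9 t + 4 - E'
    have h2 : (t + 1) * (2 * t + 1) * ((1 - (32 * (t + 1) ^ 2 + 4) / N) * p (n + 1)) ≤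
        (t + 1) * (2 * t + 1) * p (n + 2) :=
      mul_le_mul_of_nonneg_left hl (by positivity)
    have h4 : (N + 14 * t ^ 2 + 9 * t + 4 - (t + 1) * (2 * t + 1) * (32 * (t + 1) ^ 2 + 4) / N) *
        p (n + 1) ≤ (N - 18 * t ^ 2 + 9 * t) * p n := by
      rw [hr]
      have e : (N + 14 * t ^ 2 + 9 * t + 4 - (t + 1) * (2 * t + 1) * (32 * (t + 1) ^ 2 + 4) / N) *
          p (n + 1) = (12 * t ^ 2 + 6 * t + 3 + N) * p (n + 1) +
          (t + 1) * (2 * t + 1) * ((1 - (32 * (t + 1) ^ 2 + 4) / N) * p (n + 1)) := by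
        field_simp
        ring
      rw [e]
      linarith
    have hE : (t + 1) * (2 * t + 1) * (32 * (t + 1) ^ 2 + 4) / N ≤ 14 * t ^ 2 + 9 * t + 4 := by
      rw [div_le_iff₀ hN]
      nlinarith [mul_nonneg (sub_nonneg.2 hge) (by positivity : (0:ℝ) ≤ 14 * t ^ 2 + 9 * t + 4)]
    have hE2 : (t + 1) * (2 * t + 1) * (32 * (t + 1) ^ 2 + 4) / N + 32 * t ^ 2 * (14 * t ^ 2 + 9 * t + 4) / N ≤
        520 * (t + 1) ^ 4 / N := by
      rw [← add_div]
      apply div_le_div_of_nonneg_right _ hN.le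
      nlinarith [pow_pos (by linarith : (0:ℝ) < t) 3, pow_pos (by linarith : (0:ℝ) < t) 4,
        mul_nonneg (sub_nonneg.2 ht1) (by positivity : (0:ℝ) ≤ t)]
    have h5 : (N - 18 * t ^ 2 + 9 * t) ≤
        (N + 14 * t ^ 2 + 9 * t + 4 - (t + 1) * (2 * t + 1) * (32 * (t + 1) ^ 2 + 4) / N) *
          (1 - 32 * t ^ 2 / N + 520 * (t + 1) ^ 4 / N ^ 2) := by
      set E := (t + 1) * (2 * t + 1) * (32 * (t + 1) ^ 2 + 4) / N with hEd
      have hE0 : 0 ≤ E := by positivity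
      have h6 : N * (520 * (t + 1) ^ 4 / N ^ 2) = 520 * (t + 1) ^ 4 / N := by field_simp
      have h7 : N * (32 * t ^ 2 / N) = 32 * t ^ 2 := by field_simp
      have h8 : (14 * t ^ 2 + 9 * t + 4) * (32 * t ^ 2 / N) = 32 * t ^ 2 * (14 * t ^ 2 + 9 * t + 4) / N := by
        field_simp
      have h9 : 0 ≤ 520 * (t + 1) ^ 4 / N ^ 2 := by positivity
      have h10 : 0 ≤ 32 * t ^ 2 / N := by positivity
      have h11 : 0 ≤ (14 * t ^ 2 + 9 * t + 4 - E) * (520 * (t + 1) ^ 4 / N ^ 2) :=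
        mul_nonneg (by linarith) h9
      have h12 : 0 ≤ E * (32 * t ^ 2 / N) := mul_nonneg hE0 h10
      have h13 : (N + 14 * t ^ 2 + 9 * t + 4 - E) *
          (1 - 32 * t ^ 2 / N + 520 * (t + 1) ^ 4 / N ^ 2) =
          (N + 14 * t ^ 2 + 9 * t + 4 - E) - N * (32 * t ^ 2 / N)
          - (14 * t ^ 2 + 9 * t + 4) * (32 * t ^ 2 / N) + E * (32 * t ^ 2 / N)
          + N * (520 * (t + 1) ^ 4 / N ^ 2) +
          (14 * t ^ 2 + 9 * t + 4 - E) * (520 * (t + 1) ^ 4 / N ^ 2) := by ring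
      rw [h13, h7, h8, h6]
      linarith
    have h7 : 0 < (N + 14 * t ^ 2 + 9 * t + 4 - (t + 1) * (2 * t + 1) * (32 * (t + 1) ^ 2 + 4) / N) := by
      linarith
    have h8 := mul_le_mul_of_nonneg_right h5 (hp.nonneg n)
    have h9 : (N + 14 * t ^ 2 + 9 * t + 4 - (t + 1) * (2 * t + 1) * (32 * (t + 1) ^ 2 + 4) / N) *
        p (n + 1) ≤ (N + 14 * t ^ 2 + 9 * t + 4 - (t + 1) * (2 * t + 1) * (32 * (t + 1) ^ 2 + 4) / N) *
        ((1 - 32 * t ^ 2 / N + 520 * (t + 1) ^ 4 / N ^ 2) * p n) := by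
      rw [← mul_assoc]; exact h4.trans h8
    exact le_of_mul_le_mul_left h9 h7
  · rw [hp.zero (n + 1) (by omega)]
    apply mul_nonneg _ (hp.nonneg n)
    have h1 : (1 - 32 * ((n : ℝ) + 1) ^ 2 / NN m + 520 * ((n : ℝ) + 2) ^ 4 / NN m ^ 2) =
        1 - 32 * (((n : ℝ) + 1) ^ 2 / NN m) + 520 * (((n : ℝ) + 2) ^ 2 / NN m) ^ 2 := by
      field_simp
    rw [h1]
    have h2 : ((n : ℝ) + 1) ^ 2 / NN m ≤ ((n : ℝ) + 2) ^ 2 / NN m := by
      apply div_le_div_of_nonneg_right _ hN.le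
      nlinarith
    nlinarith [sq_nonneg ((((n : ℝ) + 2) ^ 2 / NN m) - 16 / 520)]

end
end LCor
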