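import Pool.Agent.Helper45.LCor.Weak

/-!
L-SHAPED CORRIDOR, module A (limit theorem), part 4: the limit is Cardy's function.
-/

set_option autoImplicit false

namespace LCor
open Finset Filter Topology MeasureTheory Set

noncomputable section

/-- Cardy's function of the cross-ratio -/
def cardyF (a : ℝ) : ℝ :=
  Real.Gamma (2 / 3) / Real.Gamma (1 / 3) ^ 2 * ∫ t in (0 : ℝ)..a, (t * (1 - t)) ^ (-(2 / 3) : ℝ)

theorem int_s {b : ℝ} (hb : 0 < b) :
    ∫ s in Set.Ioi (0 : ℝ), s * Real.exp (-(b * s ^ 3)) = b ^ (-(2 / 3) : ℝ) * (1 / 3) * Real.Gamma (2 / 3) := by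
  have h := integral_rpow_mul_exp_neg_mul_rpow (p := 3) (q := 1) (b := b) (by norm_num) (by norm_num) hb
  have e1 : (-(1 + 1) / 3 : ℝ) = -(2 / 3) := by norm_num
  have e2 : ((1 + 1) / 3 : ℝ) = 2 / 3 := by norm_num
  rw [e1, e2] at h
  rw [← h]
  refine setIntegral_congr_fun measurableSet_Ioi fun s _ => ?_
  try simp only
  rw [Real.rpow_one]
  congr 2
  have : s ^ (3 : ℝ) = s ^ 3 := by
    rw [show (3 : ℝ) = ((3 : ℕ) : ℝ) by norm_num, Real.rpow_natCast]
  rw [this]
  ring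

theorem int_0 {b : ℝ} (hb : 0 < b) :
    ∫ s in Set.Ioi (0 : ℝ), Real.exp (-(b * s ^ 3)) = b ^ (-(1 / 3) : ℝ) * (1 / 3) * Real.Gamma (1 / 3) := by
  have h := integral_rpow_mul_exp_neg_mul_rpow (p := 3) (q := 0) (b := b) (by norm_num) (by norm_num) hb
  have e1 : (-(0 + 1) / 3 : ℝ) = -(1 / 3) := by norm_num
  have e2 : ((0 + 1) / 3 : ℝ) = 1 / 3 := by norm_num
  rw [e1, e2] at h
  rw [← h]
  refine setIntegral_congr_fun measurableSet_Ioi fun s _ => ?_
  try simp only
  rw [Real.rpow_zero, one_mul]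
  congr 1
  have : s ^ (3 : ℝ) = s ^ 3 := by
    rw [show (3 : ℝ) = ((3 : ℕ) : ℝ) by norm_num, Real.rpow_natCast]
  rw [this]
  ring

theorem C0_eq : C0 = (32 / 3 : ℝ) ^ (-(1 / 3) : ℝ) * (1 / 3) * Real.Gamma (1 / 3) := by
  unfold C0 w0
  exact int_0 (by norm_num)

/-- the inner integral -/
theorem inner_eq {lam s : ℝ} (hl : 0 ≤ lam) (hs : 0 < s) :
    ∫ r in Set.Ioi (0 : ℝ), w0 r * (if r < lam * s then 1 else 0) =
      ∫ u in (0 : ℝ)..lam, w0 (u * s) * s := by
  have h1 : ∫ r in Set.Ioi (0 : ℝ), w0 r * (if r < lam * s then 1 else 0) = ∫ r in Set.Ioo (0 : ℝ) (lam * s), w0 r := by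
    have : ∀ r : ℝ, w0 r * (if r < lam * s then 1 else 0) = (Set.Iio (lam * s)).indicator w0 r := by
      intro r
      by_cases h : r < lam * s
      · rw [if_pos h, Set.indicator_of_mem (Set.mem_Iio.2 h), mul_one]
      · rw [if_neg h, Set.indicator_of_notMem (fun h' => h (Set.mem_Iio.1 h')), mul_zero]
    simp_rw [this]
    rw [setIntegral_indicator measurableSet_Iio]
    rfl
  rw [h1, ← integral_Ioc_eq_integral_Ioo, ← intervalIntegral.integral_of_le (by positivity)]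
  rw [intervalIntegral.integral_mul_const, intervalIntegral.integral_comp_mul_right _ hs.ne']
  rw [zero_mul, smul_eq_mul]
  field_simp

theorem double_eq {lam : ℝ} (hl : 0 ≤ lam) :
    ∫ s in Set.Ioi (0 : ℝ), w0 s * ∫ u in (0 : ℝ)..lam, w0 (u * s) * s =
      (32 / 3 : ℝ) ^ (-(2 / 3) : ℝ) * (1 / 3) * Real.Gamma (2 / 3) *
        ∫ u in (0 : ℝ)..lam, (1 + u ^ 3) ^ (-(2 / 3) : ℝ) := by
  have h1 : ∫ s in Set.Ioi (0 : ℝ), w0 s * ∫ u in (0 : ℝ)..lam, w0 (u * s) * s =
      ∫ s in Set.Ioi (0 : ℝ), ∫ u in Set.Ioc (0 : ℝ) lam, w0 s * (w0 (u * s) * s) := by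
    refine setIntegral_congr_fun measurableSet_Ioi fun s _ => ?_
    try simp only
    rw [intervalIntegral.integral_of_le hl, integral_const_mul]
  rw [h1, integral_integral_swap]
  · rw [intervalIntegral.integral_of_le hl, ← integral_const_mul]
    refine setIntegral_congr_fun measurableSet_Ioc fun u hu => ?_
    try simp only
    have hb : 0 < 32 / 3 * (1 + u ^ 3) := by
      have : 0 < u := hu.1
      positivity
    have h2 : ∀ s : ℝ, w0 s * (w0 (u * s) * s) = s * Real.exp (-(32 / 3 * (1 + u ^ 3) * s ^ 3)) := by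
      intro s
      unfold w0
      rw [← mul_assoc, ← Real.exp_add, mul_comm]
      congr 2
      ring
    simp_rw [h2]
    rw [int_s hb, Real.mul_rpow (by norm_num) (by have : 0 < u := hu.1; positivity)]
    ring
  · -- integrability
    have hf : Integrable (fun s : ℝ => s * w0 s) (volume.restrict (Set.Ioi 0)) := by
      have h := integrableOn_rpow_mul_exp_neg_mul_rpow (p := 3) (s := 1) (b := 32 / 3) (by norm_num) (by norm_num) (by norm_num)
      refine Integrable.congr h ?_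
      refine (ae_restrict_iff' measurableSet_Ioi).2 (Eventually.of_forall fun s _ => ?_)
      try simp only
      rw [Real.rpow_one]
      unfold w0
      congr 2
      have : s ^ (3 : ℝ) = s ^ 3 := by
        rw [show (3 : ℝ) = ((3 : ℕ) : ℝ) by norm_num, Real.rpow_natCast]
      rw [this]
      ring
    have hg : Integrable (fun _ : ℝ => (1 : ℝ)) (volume.restrict (Set.Ioc 0 lam)) := by
      apply integrable_const
    have hfg := hf.mul_prod hg
    refine hfg.mono' ?_ ?_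
    · apply Measurable.aestronglyMeasurable
      unfold Function.uncurry
      have := w0_continuous.measurable
      fun_prop
    · rw [Measure.prod_restrict]
      refine (ae_restrict_iff' (measurableSet_Ioi.prod measurableSet_Ioc)).2 (Eventually.of_forall fun x hx => ?_)
      obtain ⟨s, u⟩ := x
      have hs : 0 < s := hx.1
      have hu : 0 < u := hx.2.1
      simp only [Function.uncurry]
      have h3 : 0 ≤ w0 s * (w0 (u * s) * s) := by unfold w0; positivity
      rw [Real.norm_eq_abs, abs_of_nonneg h3, mul_one]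
      have h4 : w0 (u * s) ≤ 1 := by
        unfold w0
        rw [Real.exp_le_one_iff]
        have : 0 ≤ 32 / 3 * (u * s) ^ 3 := by positivity
        linarith
      have h5 : 0 ≤ w0 s * s := by unfold w0; positivity
      calc w0 s * (w0 (u * s) * s) = (w0 s * s) * w0 (u * s) := by ring
        _ ≤ (w0 s * s) * 1 := mul_le_mul_of_nonneg_left h4 h5
        _ = s * w0 s := by ring

/-- substitution `t = u^3/(1+u^3)` -/
theorem subst_eq {lam : ℝ} (hl : 0 ≤ lam) :
    ∫ t in (0 : ℝ)..(lam ^ 3 / (1 + lam ^ 3)), (t * (1 - t)) ^ (-(2 / 3) : ℝ) =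
      3 * ∫ u in (0 : ℝ)..lam, (1 + u ^ 3) ^ (-(2 / 3) : ℝ) := by
  rcases eq_or_lt_of_le hl with rfl | hl0
  · simp
  set f : ℝ → ℝ := fun u => u ^ 3 / (1 + u ^ 3) with hf
  set f' : ℝ → ℝ := fun u => 3 * u ^ 2 / (1 + u ^ 3) ^ 2 with hf'
  set g : ℝ → ℝ := fun t => (t * (1 - t)) ^ (-(2 / 3) : ℝ) with hg
  have hden : ∀ u : ℝ, 0 ≤ u → 0 < 1 + u ^ 3 := fun u hu => by positivity
  have hcont : ContinuousOn f (Set.Icc 0 lam) := by
    apply ContinuousOn.div (by fun_prop) (by fun_prop)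
    intro u hu
    exact (hden u hu.1).ne'
  have hf0 : f 0 = 0 := by simp [hf]
  have hf1 : f lam < 1 := by
    rw [hf]
    simp only
    rw [div_lt_one (hden lam hl)]
    linarith
  have hmem : ∀ u ∈ Set.Icc (0 : ℝ) lam, f u ∈ Set.Icc 0 (f lam) := by
    intro u hu
    refine ⟨div_nonneg (by have := hu.1; positivity) (hden u hu.1).le, ?_⟩
    rw [hf]
    simp only
    rw [div_le_div_iff₀ (hden u hu.1) (hden lam hl)]
    have : u ^ 3 ≤ lam ^ 3 := pow_le_pow_left₀ hu.1 hu.2 3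
    nlinarith
  have hkey : ∀ u : ℝ, 0 < u → (g ∘ f) u * f' u = 3 * (1 + u ^ 3) ^ (-(2 / 3) : ℝ) := by
    intro u hu
    have h1 := hden u hu.le
    have e1 : f u * (1 - f u) = u ^ 3 / (1 + u ^ 3) ^ 2 := by
      rw [hf]; field_simp; ring
    rw [Function.comp_apply, hg]
    simp only
    rw [e1, Real.div_rpow (by positivity) (by positivity)]
    have e2 : (u ^ 3) ^ (-(2 / 3) : ℝ) = (u ^ 2)⁻¹ := by
      rw [← Real.rpow_natCast, ← Real.rpow_mul hu.le, ← Real.rpow_natCast u 2, ← Real.rpow_neg hu.le]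
      norm_num
    have e3 : ((1 + u ^ 3) ^ 2) ^ (-(2 / 3) : ℝ) = (1 + u ^ 3) ^ (-(2 / 3) : ℝ) * (1 + u ^ 3) ^ (-(2 / 3) : ℝ) := by
      rw [sq, Real.mul_rpow h1.le h1.le]
    have e4 : (1 + u ^ 3) ^ (-(2 / 3) : ℝ) * (1 + u ^ 3) ^ (-(2 / 3) : ℝ) * (1 + u ^ 3) ^ (-(2 / 3) : ℝ) = ((1 + u ^ 3) ^ 2)⁻¹ := by
      rw [← Real.rpow_add h1, ← Real.rpow_add h1, ← Real.rpow_natCast (1 + u ^ 3) 2, ← Real.rpow_neg h1.le]
      norm_num
    have h5 : 0 < (1 + u ^ 3) ^ (-(2 / 3) : ℝ) := Real.rpow_pos_of_pos h1 _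
    rw [e2, e3, hf']
    simp only
    have e5 : (1 + u ^ 3) ^ (-(2 / 3) : ℝ) * (1 + u ^ 3) ^ (-(2 / 3) : ℝ) =
        ((1 + u ^ 3) ^ 2)⁻¹ / (1 + u ^ 3) ^ (-(2 / 3) : ℝ) := by
      rw [eq_div_iff h5.ne', e4]
    rw [e5]
    field_simp
  have hres := intervalIntegral.integral_comp_mul_deriv''' (a := 0) (b := lam) (f := f) (f' := f') (g := g) ?_ ?_ ?_ ?_ ?_
  · rw [hf0] at hres
    rw [show lam ^ 3 / (1 + lam ^ 3) = f lam from rfl, ← hres, ← intervalIntegral.integral_const_mul]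
    rw [intervalIntegral.integral_of_le hl, intervalIntegral.integral_of_le hl]
    exact setIntegral_congr_fun measurableSet_Ioc fun u hu => hkey u hu.1
  · rw [Set.uIcc_of_le hl]; exact hcont
  · rw [min_eq_left hl, max_eq_right hl]
    intro u hu
    have h1 := hden u hu.1.le
    have h2 : HasDerivAt f ((3 * u ^ 2 * (1 + u ^ 3) - u ^ 3 * (3 * u ^ 2)) / (1 + u ^ 3) ^ 2) u := by
      have h3 : HasDerivAt (fun u : ℝ => u ^ 3) (3 * u ^ 2) u := by simpa using hasDerivAt_pow 3 u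
      have h4 : HasDerivAt (fun u : ℝ => 1 + u ^ 3) (3 * u ^ 2) u := h3.const_add 1
      exact h3.div h4 h1.ne'
    have h3 : (3 * u ^ 2 * (1 + u ^ 3) - u ^ 3 * (3 * u ^ 2)) / (1 + u ^ 3) ^ 2 = f' u := by
      rw [hf']; congr 1; ring
    rw [h3] at h2
    exact h2.hasDerivWithinAt
  · rw [min_eq_left hl, max_eq_right hl]
    intro t ht
    obtain ⟨u, hu, rfl⟩ := ht
    have h1 := hden u hu.1.le
    have hfu : 0 < f u := div_pos (by have := hu.1; positivity) h1
    have hfu1 : f u < 1 := by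
      rw [hf]; simp only; rw [div_lt_one h1]; linarith
    apply ContinuousAt.continuousWithinAt
    apply ContinuousAt.rpow_const (by fun_prop)
    left
    exact (mul_pos hfu (by linarith)).ne'
  · -- integrability of g
    apply IntegrableOn.mono_set (t := Set.Icc 0 (f lam))
    · have hI : IntervalIntegrable (fun t : ℝ => t ^ (-(2 / 3) : ℝ) * (1 - t) ^ (-(2 / 3) : ℝ)) volume 0 (f lam) := by
        apply IntervalIntegrable.mul_continuousOn
        · exact intervalIntegral.intervalIntegrable_rpow' (by norm_num)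
        · rw [Set.uIcc_of_le (hmem lam ⟨hl, le_rfl⟩).1]
          intro t ht
          apply ContinuousAt.continuousWithinAt
          apply ContinuousAt.rpow_const (by fun_prop)
          left
          have := ht.2
          linarith [this, hf1]
      rw [intervalIntegrable_iff_integrableOn_Icc_of_le (hmem lam ⟨hl, le_rfl⟩).1] at hI
      refine hI.congr_fun ?_ measurableSet_Icc
      intro t ht
      rw [hg]
      simp only
      rw [Real.mul_rpow ht.1 (by linarith [ht.2])]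
    · rintro t ⟨u, hu, rfl⟩
      rw [Set.uIcc_of_le hl] at hu
      exact hmem u hu
  · rw [Set.uIcc_of_le hl, integrableOn_Icc_iff_integrableOn_Ioc]
    have hI : IntegrableOn (fun u : ℝ => 3 * (1 + u ^ 3) ^ (-(2 / 3) : ℝ)) (Set.Icc 0 lam) := by
      apply ContinuousOn.integrableOn_Icc
      intro u hu
      apply ContinuousAt.continuousWithinAt
      apply ContinuousAt.mul continuousAt_const
      apply ContinuousAt.rpow_const (by fun_prop)
      left
      exact (hden u hu.1).ne'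
    rw [integrableOn_Icc_iff_integrableOn_Ioc] at hI
    refine hI.congr_fun ?_ measurableSet_Ioc
    intro u hu
    exact (hkey u hu.1).symm

theorem limit_value {lam : ℝ} (hl : 0 ≤ lam) :
    (∫ s in Set.Ioi (0 : ℝ), w0 s * ((∫ r in Set.Ioi (0 : ℝ), w0 r * (if r < lam * s then 1 else 0)) / C0)) / C0 =
      cardyF (lam ^ 3 / (1 + lam ^ 3)) := by
  have h1 : ∫ s in Set.Ioi (0 : ℝ), w0 s * ((∫ r in Set.Ioi (0 : ℝ), w0 r * (if r < lam * s then 1 else 0)) / C0) =
      (∫ s in Set.Ioi (0 : ℝ), w0 s * ∫ u in (0 : ℝ)..lam, w0 (u * s) * s) / C0 := by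
    rw [← integral_div]
    refine setIntegral_congr_fun measurableSet_Ioi fun s hs => ?_
    try simp only
    rw [inner_eq hl hs]
    ring
  rw [h1, double_eq hl, div_div]
  unfold cardyF
  rw [subst_eq hl]
  have hG : 0 < Real.Gamma (1 / 3) := Real.Gamma_pos_of_pos (by norm_num)
  have e : C0 * C0 = (32 / 3 : ℝ) ^ (-(2 / 3) : ℝ) * (1 / 9) * Real.Gamma (1 / 3) ^ 2 := by
    rw [C0_eq]
    have : (32 / 3 : ℝ) ^ (-(2 / 3) : ℝ) = (32 / 3 : ℝ) ^ (-(1 / 3) : ℝ) * (32 / 3 : ℝ) ^ (-(1 / 3) : ℝ) := by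
      rw [← Real.rpow_add (by norm_num)]
      norm_num
    rw [this]
    ring
  rw [e]
  have h2 : (0 : ℝ) < (32 / 3 : ℝ) ^ (-(2 / 3) : ℝ) := Real.rpow_pos_of_pos (by norm_num) _
  field_simp
  ring

/-- **Limit theorem**: `P(J_m > J_k) → F(ρ²/(1+ρ²))` if `(2m+1)/(2k+1) → ρ`. -/
theorem PJ_tendsto {p : ℕ → ℕ → ℝ} (hp : ∀ m, IsLaw m (p m)) {mm kk : ℕ → ℕ} (hm : Tendsto mm atTop atTop)
    (hk : Tendsto kk atTop atTop) {rho : ℝ} (hrho : 0 ≤ rho)
    (hr : Tendsto (fun i => (2 * (mm i : ℝ) + 1) / (2 * kk i + 1)) atTop (𝓝 rho)) :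
    Tendsto (fun i => PJ (mm i) (kk i) (p (mm i)) (p (kk i))) atTop
      (𝓝 (cardyF (rho ^ 2 / (1 + rho ^ 2)))) := by
  have h1 : Tendsto (fun i => NN (mm i) / NN (kk i)) atTop (𝓝 (rho ^ 2)) := by
    have e : ∀ i, NN (mm i) / NN (kk i) =
        ((2 * (mm i : ℝ) + 1) / (2 * kk i + 1)) *
          (((2 * (mm i : ℝ) + 1) / (2 * kk i + 1)) + 1 / (2 * (kk i : ℝ) + 1)) / (1 + 1 / (2 * (kk i : ℝ) + 1)) := by
      intro i
      unfold NN
      have h2 : (0 : ℝ) < 2 * (kk i : ℝ) + 1 := by positivity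
      have h3 : (0 : ℝ) < (kk i : ℝ) + 1 := by positivity
      field_simp
      ring
    simp_rw [e]
    have h2 : Tendsto (fun i => 1 / (2 * (kk i : ℝ) + 1)) atTop (𝓝 0) := by
      apply Tendsto.div_atTop tendsto_const_nhds
      apply tendsto_atTop_add_const_right
      exact (tendsto_natCast_atTop_atTop.comp hk).const_mul_atTop (by norm_num)
    have h3 := (hr.mul (hr.add h2)).div (tendsto_const_nhds.add h2 : Tendsto (fun i => 1 + 1 / (2 * (kk i : ℝ) + 1)) atTop (𝓝 (1 + 0))) (by norm_num)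
    have e2 : rho * (rho + 0) / (1 + 0) = rho ^ 2 := by ring
    rw [e2] at h3
    exact h3
  have h2 : Tendsto (fun i => aa (mm i) / aa (kk i)) atTop (𝓝 ((rho ^ 2) ^ (1 / 3 : ℝ))) := by
    have e : ∀ i, aa (mm i) / aa (kk i) = (NN (mm i) / NN (kk i)) ^ (1 / 3 : ℝ) := fun i => by
      unfold aa
      rw [Real.div_rpow (NN_pos _).le (NN_pos _).le]
    simp_rw [e]
    exact (Real.continuousAt_rpow_const _ _ (Or.inr (by norm_num))).tendsto.comp h1
  have h3 := PJ_tendsto0 hp hm hk h2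
  rw [limit_value (by positivity)] at h3
  have e : ((rho ^ 2) ^ (1 / 3 : ℝ)) ^ 3 = rho ^ 2 := by
    rw [← Real.rpow_natCast, ← Real.rpow_mul (by positivity)]
    norm_num
  rwa [e] at h3

end
end LCor
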