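import Pool.Agent.Helper45.LCor.Law

/-!
L-SHAPED CORRIDOR, module A (limit theorem), part 2: weak convergence of `J_m / N^{1/3}`.
-/

set_option autoImplicit false

namespace LCor
open Finset Filter Topology MeasureTheory

noncomputable section

variable {m : ℕ} {p : ℕ → ℝ}

theorem IsLaw.tail (hp : IsLaw m p) (n : ℕ) :
    p n ≤ Real.exp (-(13 / 3 * (n : ℝ) ^ 3 / NN m)) * p 0 := by
  have hN := NN_pos m
  induction n with
  | zero => simp
  | succ n ih =>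
    refine (hp.upper1 n).trans ?_
    refine (mul_le_mul_of_nonneg_left ih (Real.exp_pos _).le).trans ?_
    rw [← mul_assoc, ← Real.exp_add]
    apply mul_le_mul_of_nonneg_right _ (hp.nonneg 0)
    apply Real.exp_le_exp.2
    push_cast
    have h0 : (0 : ℝ) ≤ n := Nat.cast_nonneg n
    have : 13 / 3 * ((n : ℝ) + 1) ^ 3 / NN m ≤ 13 * ((n : ℝ) + 1) ^ 2 / NN m + 13 / 3 * (n : ℝ) ^ 3 / NN m := by
      rw [← add_div]
      apply div_le_div_of_nonneg_right _ hN.le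
      nlinarith
    linarith

theorem IsLaw.up (hp : IsLaw m p) (n : ℕ) :
    p n ≤ Real.exp (-(32 / 3 * (n : ℝ) ^ 3 / NN m) + 520 * (n * ((n : ℝ) + 1) ^ 4) / NN m ^ 2) * p 0 := by
  have hN := NN_pos m
  induction n with
  | zero => simp
  | succ n ih =>
    have h0 : (0 : ℝ) ≤ n := Nat.cast_nonneg n
    have h1 : (1 - 32 * ((n : ℝ) + 1) ^ 2 / NN m + 520 * ((n : ℝ) + 2) ^ 4 / NN m ^ 2) ≤
        Real.exp (-(32 * ((n : ℝ) + 1) ^ 2 / NN m) + 520 * ((n : ℝ) + 2) ^ 4 / NN m ^ 2) := by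
      have := Real.add_one_le_exp (-(32 * ((n : ℝ) + 1) ^ 2 / NN m) + 520 * ((n : ℝ) + 2) ^ 4 / NN m ^ 2)
      linarith
    refine (hp.upper2 n).trans ?_
    refine (mul_le_mul_of_nonneg_right h1 (hp.nonneg n)).trans ?_
    refine (mul_le_mul_of_nonneg_left ih (Real.exp_pos _).le).trans ?_
    rw [← mul_assoc, ← Real.exp_add]
    apply mul_le_mul_of_nonneg_right _ (hp.nonneg 0)
    apply Real.exp_le_exp.2
    push_cast
    have e1 : 32 / 3 * ((n : ℝ) + 1) ^ 3 / NN m ≤ 32 * ((n : ℝ) + 1) ^ 2 / NN m + 32 / 3 * (n : ℝ) ^ 3 / NN m := by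
      rw [← add_div]
      apply div_le_div_of_nonneg_right _ hN.le
      nlinarith
    have e2 : 520 * ((n : ℝ) + 2) ^ 4 / NN m ^ 2 + 520 * (n * ((n : ℝ) + 1) ^ 4) / NN m ^ 2 ≤
        520 * (((n : ℝ) + 1) * ((n : ℝ) + 1 + 1) ^ 4) / NN m ^ 2 := by
      rw [← add_div]
      apply div_le_div_of_nonneg_right _ (by positivity)
      have h2 : ((n : ℝ) + 1) ^ 4 ≤ ((n : ℝ) + 2) ^ 4 := pow_le_pow_left₀ (by linarith) (by linarith) 4
      have h3 : (n : ℝ) + 1 + 1 = n + 2 := by ring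
      rw [h3]
      nlinarith
    linarith

theorem one_sub_ge {x : ℝ} (h0 : 0 ≤ x) (h1 : x ≤ 1 / 2) : Real.exp (-(x + x ^ 2)) ≤ 1 - x := by
  have h2 : 0 < 1 - x := by linarith
  have h3 : (1 - x) * (1 + x + x ^ 2) ≥ 0 := by positivity
  -- exp (x + x^2) >= 1 + x + x^2 + ... ; (1 - x) * exp (x + x^2) >= 1
  have h4 : 1 + (x + x ^ 2) + (x + x ^ 2) ^ 2 / 2 ≤ Real.exp (x + x ^ 2) :=
    Real.quadratic_le_exp_of_nonneg (by positivity)
  have h5 : 1 ≤ (1 - x) * Real.exp (x + x ^ 2) := by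
    have h6 : 1 ≤ (1 - x) * (1 + (x + x ^ 2) + (x + x ^ 2) ^ 2 / 2) := by
      nlinarith [mul_nonneg h0 h0, mul_nonneg (mul_nonneg h0 h0) h0, mul_nonneg (mul_nonneg h0 h0) (sub_nonneg.2 h1),
        mul_nonneg (mul_nonneg (mul_nonneg h0 h0) h0) (sub_nonneg.2 h1),
        mul_nonneg (mul_nonneg (mul_nonneg (mul_nonneg h0 h0) h0) h0) (sub_nonneg.2 h1)]
    exact h6.trans (mul_le_mul_of_nonneg_left h4 h2.le)
  rw [Real.exp_neg, inv_le_comm₀ (Real.exp_pos _) h2, inv_le_iff_one_le_mul₀ h2]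
  linarith

theorem IsLaw.low (hp : IsLaw m p) (n : ℕ) (hn : 72 * (n : ℝ) ^ 2 ≤ NN m) :
    Real.exp (-(32 / 3 * ((n : ℝ) + 1) ^ 3 / NN m + 4 * n / NN m + 1296 * (n * ((n : ℝ) + 1) ^ 4) / NN m ^ 2)) * p 0 ≤
      p n := by
  have hN := NN_pos m
  induction n with
  | zero =>
    have : Real.exp (-(32 / 3 * (((0 : ℕ) : ℝ) + 1) ^ 3 / NN m + 4 * ((0 : ℕ) : ℝ) / NN m +
        1296 * (((0 : ℕ) : ℝ) * (((0 : ℕ) : ℝ) + 1) ^ 4) / NN m ^ 2)) ≤ 1 := by
      rw [Real.exp_le_one_iff]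
      have : 0 ≤ 32 / 3 * (((0 : ℕ) : ℝ) + 1) ^ 3 / NN m + 4 * ((0 : ℕ) : ℝ) / NN m +
        1296 * (((0 : ℕ) : ℝ) * (((0 : ℕ) : ℝ) + 1) ^ 4) / NN m ^ 2 := by positivity
      linarith
    have h1 := mul_le_mul_of_nonneg_right this (hp.nonneg 0)
    rwa [one_mul] at h1
  | succ n ih =>
    have h0 : (0 : ℝ) ≤ n := Nat.cast_nonneg n
    push_cast at hn ⊢
    have ih' := ih (by nlinarith)
    set x := (32 * ((n : ℝ) + 1) ^ 2 + 4) / NN m with hx
    have hx0 : 0 ≤ x := by positivity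
    have hx1 : x ≤ 36 * ((n : ℝ) + 1) ^ 2 / NN m := by
      rw [hx]
      apply div_le_div_of_nonneg_right _ hN.le
      nlinarith
    have hx2 : x ≤ 1 / 2 := by
      refine hx1.trans ?_
      rw [div_le_iff₀ hN]
      linarith
    have hx3 : x ^ 2 ≤ 1296 * ((n : ℝ) + 1) ^ 4 / NN m ^ 2 := by
      have := pow_le_pow_left₀ hx0 hx1 2
      refine this.trans (le_of_eq ?_)
      rw [div_pow]
      ring
    refine le_trans ?_ (hp.lower n)
    refine le_trans ?_ (mul_le_mul_of_nonneg_right (one_sub_ge hx0 hx2) (hp.nonneg n))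
    refine le_trans ?_ (mul_le_mul_of_nonneg_left ih' (Real.exp_pos _).le)
    have eE : ∀ A B C : ℝ, Real.exp A * (Real.exp B * C) = Real.exp (A + B) * C := by
      intro A B C
      rw [Real.exp_add]; ring
    rw [eE]
    apply mul_le_mul_of_nonneg_right _ (hp.nonneg 0)
    apply Real.exp_le_exp.2
    have e0 : x = 32 * ((n : ℝ) + 1) ^ 2 / NN m + 4 / NN m := by rw [hx, add_div]
    have e1 : 32 * ((n : ℝ) + 1) ^ 2 / NN m + 32 / 3 * ((n : ℝ) + 1) ^ 3 / NN m ≤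
        32 / 3 * ((n : ℝ) + 1 + 1) ^ 3 / NN m := by
      rw [← add_div]
      apply div_le_div_of_nonneg_right _ hN.le
      nlinarith
    have e2 : 1296 * ((n : ℝ) + 1) ^ 4 / NN m ^ 2 + 1296 * (n * ((n : ℝ) + 1) ^ 4) / NN m ^ 2 ≤
        1296 * (((n : ℝ) + 1) * ((n : ℝ) + 1 + 1) ^ 4) / NN m ^ 2 := by
      rw [← add_div]
      apply div_le_div_of_nonneg_right _ (by positivity)
      have h2 : ((n : ℝ) + 1) ^ 4 ≤ ((n : ℝ) + 1 + 1) ^ 4 := pow_le_pow_left₀ (by linarith) (by linarith) 4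
      nlinarith
    have e3 : 4 * ((n : ℝ) + 1) / NN m = 4 / NN m + 4 * n / NN m := by ring
    have e4 : 1296 * ((n : ℝ) + 1) * ((n : ℝ) + 1 + 1) ^ 4 / NN m ^ 2 =
      1296 * (((n : ℝ) + 1) * ((n : ℝ) + 1 + 1) ^ 4) / NN m ^ 2 := by ring
    have e5 : (32 * ((n : ℝ) + 1) ^ 2 + 4) / NN m = x := hx.symm
    rw [e5]
    first
      | linarith
      | (rw [e4]; linarith)

/-- the scale `N^{1/3}` -/
def aa (m : ℕ) : ℝ := NN m ^ (1 / 3 : ℝ)

theorem aa_pos (m : ℕ) : 0 < aa m := Real.rpow_pos_of_pos (NN_pos m) _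

theorem aa_cube (m : ℕ) : aa m ^ 3 = NN m := by
  unfold aa
  rw [← Real.rpow_natCast, ← Real.rpow_mul (NN_pos m).le]
  norm_num

theorem aa_ge_one (m : ℕ) : 1 ≤ aa m := by
  by_contra h
  push Not at h
  have h1 : aa m ^ 3 < 1 := pow_lt_one₀ (aa_pos m).le h (by norm_num)
  rw [aa_cube] at h1
  have := NN_ge (m := m) (n := 0) (by omega)
  norm_num at this
  linarith

theorem aa_tendsto : Tendsto aa atTop atTop := by
  unfold aa
  refine (tendsto_rpow_atTop (by norm_num)).comp ?_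
  apply tendsto_atTop_mono (f := fun m : ℕ => (m : ℝ)) _ tendsto_natCast_atTop_atTop
  intro m
  have := NN_ge (m := m) (n := m) le_rfl
  nlinarith [sq_nonneg (m : ℝ), (Nat.cast_nonneg m : (0:ℝ) ≤ m)]

/-- pointwise convergence -/
theorem ratio_tendsto {p : ℕ → ℕ → ℝ} (hp : ∀ m, IsLaw m (p m)) {s : ℝ} (hs : 0 ≤ s) :
    Tendsto (fun m => p m ⌊s * aa m⌋₊ / p m 0) atTop (𝓝 (Real.exp (-(32 / 3 * s ^ 3)))) := by
  set x : ℕ → ℝ := fun m => (⌊s * aa m⌋₊ : ℝ) / aa m with hx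
  have hxt : Tendsto x atTop (𝓝 s) := (tendsto_nat_floor_mul_div_atTop hs).comp aa_tendsto
  have hinv : Tendsto (fun m => 1 / aa m) atTop (𝓝 0) := by
    have := aa_tendsto.inv_tendsto_atTop
    refine this.congr fun m => ?_
    simp [one_div]
  have hn : ∀ m, (⌊s * aa m⌋₊ : ℝ) = x m * aa m := fun m => by
    rw [hx]; field_simp [(aa_pos m).ne']
  have hp0 : ∀ m, 0 < p m 0 := fun m => (hp m).pos 0 (by omega)
  -- upper
  have hU : Tendsto (fun m => Real.exp (-(32 / 3 * x m ^ 3) + 520 * (x m * (x m + 1 / aa m) ^ 4) * (1 / aa m)))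
      atTop (𝓝 (Real.exp (-(32 / 3 * s ^ 3)))) := by
    have : Tendsto (fun m => -(32 / 3 * x m ^ 3) + 520 * (x m * (x m + 1 / aa m) ^ 4) * (1 / aa m)) atTop
        (𝓝 (-(32 / 3 * s ^ 3) + 520 * (s * (s + 0) ^ 4) * 0)) :=
      ((hxt.pow 3).const_mul _).neg.add ((((hxt.mul ((hxt.add hinv).pow 4))).const_mul _).mul hinv)
    rw [mul_zero, add_zero] at this
    exact (Real.continuous_exp.tendsto _).comp this
  have hL : Tendsto (fun m => Real.exp (-(32 / 3 * (x m + 1 / aa m) ^ 3 + 4 * x m * (1 / aa m) * (1 / aa m) +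
      1296 * (x m * (x m + 1 / aa m) ^ 4) * (1 / aa m)))) atTop (𝓝 (Real.exp (-(32 / 3 * s ^ 3)))) := by
    have : Tendsto (fun m => -(32 / 3 * (x m + 1 / aa m) ^ 3 + 4 * x m * (1 / aa m) * (1 / aa m) +
        1296 * (x m * (x m + 1 / aa m) ^ 4) * (1 / aa m))) atTop
        (𝓝 (-(32 / 3 * (s + 0) ^ 3 + 4 * s * 0 * 0 + 1296 * (s * (s + 0) ^ 4) * 0))) :=
      ((((hxt.add hinv).pow 3).const_mul _).add ((((hxt.const_mul _).mul hinv).mul hinv)) |>.add
        ((((hxt.mul ((hxt.add hinv).pow 4))).const_mul _).mul hinv)).neg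
    simp only [mul_zero, add_zero] at this
    exact (Real.continuous_exp.tendsto _).comp this
  refine tendsto_of_tendsto_of_tendsto_of_le_of_le' hL hU ?_ ?_
  · -- lower bound, eventually
    have hev : ∀ᶠ m in atTop, 72 * x m ^ 2 * (1 / aa m) ≤ 1 := by
      have : Tendsto (fun m => 72 * x m ^ 2 * (1 / aa m)) atTop (𝓝 (72 * s ^ 2 * 0)) :=
        ((hxt.pow 2).const_mul _).mul hinv
      rw [mul_zero] at this
      exact (this.eventually (ge_mem_nhds (by norm_num : (0 : ℝ) < 1)))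
    filter_upwards [hev] with m hm
    rw [le_div_iff₀ (hp0 m)]
    have ha := aa_pos m
    have hN : NN m = aa m ^ 3 := (aa_cube m).symm
    have h1 : 72 * (⌊s * aa m⌋₊ : ℝ) ^ 2 ≤ NN m := by
      rw [hn, hN]
      have e : 72 * (x m * aa m) ^ 2 = (72 * x m ^ 2 * (1 / aa m)) * aa m ^ 3 := by field_simp
      rw [e]
      have h3 : 0 < aa m ^ 3 := by positivity
      nlinarith
    have h2 := (hp m).low ⌊s * aa m⌋₊ h1
    refine le_trans (le_of_eq ?_) h2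
    congr 2
    rw [hn, hN]
    field_simp
  · refine Eventually.of_forall fun m => ?_
    rw [div_le_iff₀ (hp0 m)]
    have ha := aa_pos m
    have hN : NN m = aa m ^ 3 := (aa_cube m).symm
    refine ((hp m).up ⌊s * aa m⌋₊).trans (le_of_eq ?_)
    congr 2
    rw [hn, hN]
    field_simp

/-- domination -/
theorem ratio_le {p : ℕ → ℕ → ℝ} (hp : ∀ m, IsLaw m (p m)) (m : ℕ) {s : ℝ} (hs : 0 ≤ s) :
    p m ⌊s * aa m⌋₊ / p m 0 ≤ Real.exp (3 - s) := by
  have hp0 : 0 < p m 0 := (hp m).pos 0 (by omega)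
  rw [div_le_iff₀ hp0]
  refine ((hp m).tail _).trans ?_
  apply mul_le_mul_of_nonneg_right _ hp0.le
  apply Real.exp_le_exp.2
  have ha := aa_pos m
  have ha1 := aa_ge_one m
  have hN : NN m = aa m ^ 3 := (aa_cube m).symm
  set n := ⌊s * aa m⌋₊ with hn
  have h1 : s * aa m < n + 1 := Nat.lt_floor_add_one _
  set y : ℝ := (n : ℝ) / aa m with hy
  have hy0 : 0 ≤ y := by positivity
  have hny : (n : ℝ) = y * aa m := by rw [hy]; field_simp
  have h2 : s - 1 ≤ y := by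
    rw [hny] at h1
    nlinarith
  have h3 : 13 / 3 * (n : ℝ) ^ 3 / NN m = 13 / 3 * y ^ 3 := by
    rw [hny, hN]; field_simp
  rw [h3]
  nlinarith [sq_nonneg (y - 1 / 3), mul_nonneg hy0 (sq_nonneg (y - 1 / 3)), mul_nonneg hy0 hy0]

end
end LCor
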