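import Pool.Agent.Helper45.LCor.Asym

/-!
L-SHAPED CORRIDOR, module A (limit theorem), part 3: Riemann sums.
-/

set_option autoImplicit false

namespace LCor
open Finset Filter Topology MeasureTheory

noncomputable section

/-- a finite sum as an integral of a step function -/
theorem sum_eq_integral {a : ℝ} (ha : 0 < a) (m : ℕ) (F : ℕ → ℝ) (hF : ∀ n, m < n → F n = 0) :
    ∫ s in Set.Ioi (0 : ℝ), F ⌊s * a⌋₊ = (∑ n ∈ range (m + 1), F n) / a := by
  rw [← integral_Ici_eq_integral_Ioi]
  have h1 : Set.EqOn (fun s : ℝ => F ⌊s * a⌋₊)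
      (fun s => ∑ n ∈ range (m + 1), (Set.Ico ((n : ℝ) / a) ((n + 1) / a)).indicator (fun _ => F n) s)
      (Set.Ici (0 : ℝ)) := by
    intro s hs
    simp only
    have hs0 : 0 ≤ s * a := mul_nonneg hs ha.le
    set k := ⌊s * a⌋₊ with hk
    have hmem : ∀ n : ℕ, s ∈ Set.Ico ((n : ℝ) / a) ((n + 1) / a) ↔ n = k := by
      intro n
      rw [Set.mem_Ico, div_le_iff₀ ha, lt_div_iff₀ ha, hk, eq_comm (a := n), Nat.floor_eq_iff hs0]
    by_cases hkm : k ≤ m
    · rw [Finset.sum_eq_single k]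
      · rw [Set.indicator_of_mem ((hmem k).2 rfl)]
      · intro n _ hn
        rw [Set.indicator_of_notMem (fun h => hn ((hmem n).1 h))]
      · intro h
        exact absurd (Finset.mem_range.2 (by omega)) h
    · rw [hF k (by omega), Finset.sum_eq_zero]
      intro n hn
      rw [Set.indicator_of_notMem]
      intro h
      have := (hmem n).1 h
      rw [Finset.mem_range] at hn
      omega
  rw [setIntegral_congr_fun measurableSet_Ici h1, integral_finsetSum]
  · rw [Finset.sum_div]
    apply Finset.sum_congr rfl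
    intro n _
    rw [setIntegral_indicator measurableSet_Ico]
    have : Set.Ici (0 : ℝ) ∩ Set.Ico ((n : ℝ) / a) ((n + 1) / a) = Set.Ico ((n : ℝ) / a) ((n + 1) / a) := by
      apply Set.inter_eq_self_of_subset_right
      intro x hx
      exact le_trans (by positivity) hx.1
    rw [this, setIntegral_const, smul_eq_mul]
    simp only [Measure.real, Real.volume_Ico]
    rw [ENNReal.toReal_ofReal]
    · field_simp
      ring
    · rw [← sub_div]
      apply div_nonneg _ ha.le
      linarith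
  · intro n _
    have : Integrable ((Set.Ico ((n : ℝ) / a) ((n + 1) / a)).indicator (fun _ => F n)) volume := by
      apply IntegrableOn.integrable_indicator _ measurableSet_Ico
      apply integrableOn_const
      · rw [Real.volume_Ico]
        exact ENNReal.ofReal_ne_top
      · exact enorm_ne_top
    exact this.integrableOn

/-- unnormalised limit density -/
def w0 (s : ℝ) : ℝ := Real.exp (-(32 / 3 * s ^ 3))

theorem w0_le {s : ℝ} (hs : 0 ≤ s) : w0 s ≤ Real.exp (3 - s) := by
  unfold w0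
  apply Real.exp_le_exp.2
  nlinarith [sq_nonneg (s - 1 / 3), mul_nonneg hs (sq_nonneg (s - 1 / 3)), mul_nonneg hs hs]

theorem dom_integrable : IntegrableOn (fun s : ℝ => Real.exp (3 - s)) (Set.Ioi 0) := by
  have h : (fun s : ℝ => Real.exp (3 - s)) = fun s => Real.exp 3 * Real.exp (-s) := by
    funext s
    rw [← Real.exp_add]
    ring_nf
  rw [h]
  exact (integrableOn_exp_neg_Ioi 0).const_mul _

theorem w0_continuous : Continuous w0 := by unfold w0; fun_prop

theorem w0_integrable : IntegrableOn w0 (Set.Ioi 0) := by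
  refine Integrable.mono' dom_integrable w0_continuous.aestronglyMeasurable ?_
  refine (ae_restrict_iff' measurableSet_Ioi).2 (Eventually.of_forall fun s hs => ?_)
  rw [Real.norm_eq_abs, abs_of_pos (show 0 < w0 s from Real.exp_pos _)]
  exact w0_le (le_of_lt hs)

/-- `∫ w0` -/
def C0 : ℝ := ∫ s in Set.Ioi (0 : ℝ), w0 s

theorem C0_pos : 0 < C0 := by
  unfold C0
  rw [setIntegral_pos_iff_support_of_nonneg_ae]
  · have : Function.support w0 = Set.univ := by
      ext s
      simp [w0, Real.exp_ne_zero]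
    rw [this, Set.univ_inter]
    simp
  · exact Eventually.of_forall fun s => (Real.exp_pos _).le
  · exact w0_integrable

theorem measurable_floor_fun (F : ℕ → ℝ) (a : ℝ) : Measurable (fun s : ℝ => F ⌊s * a⌋₊) :=
  (measurable_from_nat (f := F)).comp (Nat.measurable_floor.comp (measurable_id.mul_const a))

/-- unnormalised weak convergence -/
theorem weak0 {p : ℕ → ℕ → ℝ} (hp : ∀ m, IsLaw m (p m)) {mm : ℕ → ℕ} (hm : Tendsto mm atTop atTop)
    (G : ℕ → ℕ → ℝ) (g : ℝ → ℝ) (hG : ∀ i n, |G i n| ≤ 1)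
    (hlim : ∀ᵐ s ∂(volume.restrict (Set.Ioi (0 : ℝ))), Tendsto (fun i => G i ⌊s * aa (mm i)⌋₊) atTop (𝓝 (g s))) :
    Tendsto (fun i => (∑ n ∈ range (mm i + 1), p (mm i) n * G i n) / (p (mm i) 0 * aa (mm i))) atTop
      (𝓝 (∫ s in Set.Ioi (0 : ℝ), w0 s * g s)) := by
  have hp0 : ∀ m, 0 < p m 0 := fun m => (hp m).pos 0 (by omega)
  have h1 : ∀ i, (∑ n ∈ range (mm i + 1), p (mm i) n * G i n) / (p (mm i) 0 * aa (mm i)) =
      ∫ s in Set.Ioi (0 : ℝ), p (mm i) ⌊s * aa (mm i)⌋₊ / p (mm i) 0 * G i ⌊s * aa (mm i)⌋₊ := by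
    intro i
    rw [sum_eq_integral (aa_pos (mm i)) (mm i) (fun n => p (mm i) n / p (mm i) 0 * G i n)]
    · rw [← div_div, Finset.sum_div]
      congr 1
      apply Finset.sum_congr rfl
      intro n _
      ring
    · intro n hn
      rw [(hp (mm i)).zero n hn]
      simp
  simp_rw [h1]
  refine tendsto_integral_of_dominated_convergence (fun s => Real.exp (3 - s)) ?_ dom_integrable ?_ ?_
  · intro i
    apply Measurable.aestronglyMeasurable
    exact measurable_floor_fun (fun n => p (mm i) n / p (mm i) 0 * G i n) _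
  · intro i
    refine (ae_restrict_iff' measurableSet_Ioi).2 (Eventually.of_forall fun s hs => ?_)
    rw [Real.norm_eq_abs, abs_mul]
    have hn : 0 ≤ p (mm i) ⌊s * aa (mm i)⌋₊ / p (mm i) 0 := div_nonneg ((hp _).nonneg _) (hp0 _).le
    rw [abs_of_nonneg hn]
    calc _ ≤ p (mm i) ⌊s * aa (mm i)⌋₊ / p (mm i) 0 * 1 := mul_le_mul_of_nonneg_left (hG _ _) hn
      _ ≤ _ := by rw [mul_one]; exact ratio_le hp _ (le_of_lt hs)
  · filter_upwards [hlim, ae_restrict_mem measurableSet_Ioi] with s hs hs0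
    exact ((ratio_tendsto hp (le_of_lt hs0)).comp hm).mul hs

/-- weak convergence of `J_m / N^{1/3}` -/
theorem weak {p : ℕ → ℕ → ℝ} (hp : ∀ m, IsLaw m (p m)) {mm : ℕ → ℕ} (hm : Tendsto mm atTop atTop)
    (G : ℕ → ℕ → ℝ) (g : ℝ → ℝ) (hG : ∀ i n, |G i n| ≤ 1)
    (hlim : ∀ᵐ s ∂(volume.restrict (Set.Ioi (0 : ℝ))), Tendsto (fun i => G i ⌊s * aa (mm i)⌋₊) atTop (𝓝 (g s))) :
    Tendsto (fun i => ∑ n ∈ range (mm i + 1), p (mm i) n * G i n) atTop
      (𝓝 ((∫ s in Set.Ioi (0 : ℝ), w0 s * g s) / C0)) := by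
  have hp0 : ∀ m, 0 < p m 0 := fun m => (hp m).pos 0 (by omega)
  have h1 := weak0 hp hm G g hG hlim
  have h2 := weak0 hp hm (fun _ _ => 1) (fun _ => 1) (fun _ _ => by simp) (Eventually.of_forall fun s => tendsto_const_nhds)
  simp only [mul_one] at h2
  have h3 := h1.div h2 C0_pos.ne'
  refine h3.congr fun i => ?_
  rw [Pi.div_apply, (hp (mm i)).sum]
  have := hp0 (mm i)
  have := aa_pos (mm i)
  field_simp

/-- `P(J > J')` -/
def PJ (m k : ℕ) (p q : ℕ → ℝ) : ℝ := ∑ j ∈ range (m + 1), ∑ l ∈ range j, p j * q l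

theorem PJ_tendsto0 {p : ℕ → ℕ → ℝ} (hp : ∀ m, IsLaw m (p m)) {mm kk : ℕ → ℕ} (hm : Tendsto mm atTop atTop)
    (hk : Tendsto kk atTop atTop) {lam : ℝ} (hr : Tendsto (fun i => aa (mm i) / aa (kk i)) atTop (𝓝 lam)) :
    Tendsto (fun i => PJ (mm i) (kk i) (p (mm i)) (p (kk i))) atTop
      (𝓝 ((∫ s in Set.Ioi (0 : ℝ), w0 s * ((∫ r in Set.Ioi (0 : ℝ), w0 r * (if r < lam * s then 1 else 0)) / C0)) / C0)) := by
  have hG : ∀ i n, |∑ l ∈ range n, p (kk i) l| ≤ 1 := by
    intro i n
    rw [abs_of_nonneg (Finset.sum_nonneg fun l _ => (hp _).nonneg l), ← (hp (kk i)).sum]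
    have h1 : ∀ N, ∑ l ∈ range N, p (kk i) l ≤ ∑ l ∈ range (N + (kk i + 1)), p (kk i) l := fun N =>
      Finset.sum_le_sum_of_subset_of_nonneg (Finset.range_mono (by omega)) fun l _ _ => (hp _).nonneg l
    refine (h1 n).trans (le_of_eq ?_)
    rw [add_comm, Finset.sum_range_add]
    have : ∑ x ∈ range n, p (kk i) (kk i + 1 + x) = 0 :=
      Finset.sum_eq_zero fun x _ => (hp _).zero _ (by omega)
    rw [this, add_zero]
  have key := weak hp hm (fun i n => ∑ l ∈ range n, p (kk i) l)
    (fun s => (∫ r in Set.Ioi (0 : ℝ), w0 r * (if r < lam * s then 1 else 0)) / C0) hG ?_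
  · refine key.congr fun i => ?_
    unfold PJ
    apply Finset.sum_congr rfl
    intro j _
    rw [Finset.mul_sum]
  refine (ae_restrict_iff' measurableSet_Ioi).2 (Eventually.of_forall fun s hs => ?_)
  have h2 := weak hp hk (fun i l => if l < ⌊s * aa (mm i)⌋₊ then 1 else 0)
    (fun r => if r < lam * s then 1 else 0) (fun i n => by split_ifs <;> simp) ?_
  · refine h2.congr fun i => ?_
    -- both sums
    have e1 : ∀ N M : ℕ, ∑ n ∈ range (N + 1), p (kk i) n * (if n < M then 1 else 0) =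
        ∑ n ∈ (range (N + 1)).filter (fun n => n < M), p (kk i) n := by
      intro N M
      rw [Finset.sum_filter]
      apply Finset.sum_congr rfl
      intro n _
      split_ifs <;> simp
    rw [e1]
    apply Finset.sum_subset_zero_on_sdiff
    · intro n hn
      rw [Finset.mem_filter] at hn
      exact Finset.mem_range.2 hn.2
    · intro n hn
      rw [Finset.mem_sdiff, Finset.mem_filter, Finset.mem_range, Finset.mem_range] at hn
      apply (hp _).zero
      by_contra hcon
      exact hn.2 ⟨by omega, hn.1⟩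
    · intro n _; rfl
  -- pointwise convergence of the indicator
  have hne : ∀ᵐ r ∂(volume.restrict (Set.Ioi (0 : ℝ))), r ≠ lam * s := by
    refine ae_restrict_of_ae ?_
    rw [ae_iff]
    have : {a : ℝ | ¬ a ≠ lam * s} = {lam * s} := by ext; simp
    rw [this]
    exact Real.volume_singleton
  filter_upwards [hne, ae_restrict_mem measurableSet_Ioi] with r hr1 hr0
  have hak : Tendsto (fun i => aa (kk i)) atTop atTop := aa_tendsto.comp hk
  have hdiff : ∀ i, s * aa (mm i) - r * aa (kk i) = (s * (aa (mm i) / aa (kk i)) - r) * aa (kk i) := by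
    intro i
    have := (aa_pos (kk i)).ne'
    field_simp
  have hlim1 : Tendsto (fun i => s * (aa (mm i) / aa (kk i)) - r) atTop (𝓝 (s * lam - r)) :=
    (hr.const_mul s).sub_const r
  rcases lt_or_gt_of_ne hr1 with h | h
  · rw [if_pos h]
    have hpos : 0 < s * lam - r := by linarith
    have h3 : Tendsto (fun i => s * aa (mm i) - r * aa (kk i)) atTop atTop := by
      simp_rw [hdiff]
      exact hlim1.pos_mul_atTop hpos hak
    apply tendsto_const_nhds.congr'
    filter_upwards [h3.eventually_ge_atTop 1] with i hi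
    rw [if_pos]
    have hr2 : 0 ≤ r * aa (kk i) := mul_nonneg (le_of_lt hr0) (aa_pos _).le
    have h4 : (⌊r * aa (kk i)⌋₊ : ℝ) ≤ r * aa (kk i) := Nat.floor_le hr2
    have h5 : s * aa (mm i) < ⌊s * aa (mm i)⌋₊ + 1 := Nat.lt_floor_add_one _
    have h6 : (⌊r * aa (kk i)⌋₊ : ℝ) < ⌊s * aa (mm i)⌋₊ := by linarith
    exact_mod_cast h6
  · rw [if_neg (not_lt.2 h.le)]
    have hneg : s * lam - r < 0 := by linarith
    apply tendsto_const_nhds.congr'
    filter_upwards [hlim1.eventually (gt_mem_nhds hneg)] with i hi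
    rw [if_neg]
    rw [not_lt]
    apply Nat.floor_mono
    have h7 := hdiff i
    have h8 : (s * (aa (mm i) / aa (kk i)) - r) * aa (kk i) < 0 := mul_neg_of_neg_of_pos hi (aa_pos _)
    linarith

end
end LCor
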